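import Pool.Agent.W47.JL.Defs

/-!
# JL-SMALL: joint Siegel lemma for sequences with a common recurrence
-/

set_option autoImplicit false

namespace Pool.Agent.W928.JL

open Finset Polynomial Module
open Pool.Agent.H831R3.LC (W W_eq)
open Pool.Agent.W47.JL

/-- vectors which satisfy the recurrence -/
def V (m N : ℕ) (c : ℕ → ℚ) : Submodule ℚ (Fin N → ℚ) where
  carrier := {v | ∀ q : Fin N, m ≤ (q : ℕ) →
    v q = ∑ l ∈ range m, c l * (if h : (q : ℕ) - m + l < N then v ⟨q - m + l, h⟩ else 0)}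
  add_mem' := by
    intro v w hv hw q hq
    rw [Pi.add_apply, hv q hq, hw q hq, ← Finset.sum_add_distrib]
    refine Finset.sum_congr rfl fun l _ => ?_
    split_ifs
    · rw [Pi.add_apply]; ring
    · ring
  zero_mem' := by
    intro q hq
    rw [Pi.zero_apply]
    symm
    refine Finset.sum_eq_zero fun l _ => ?_
    split_ifs <;> simp
  smul_mem' := by
    intro s v hv q hq
    rw [Pi.smul_apply, hv q hq, smul_eq_mul, Finset.mul_sum]
    refine Finset.sum_congr rfl fun l _ => ?_
    split_ifs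
    · rw [Pi.smul_apply, smul_eq_mul]; ring
    · ring

lemma mem_V (m N : ℕ) (c : ℕ → ℚ) (v : Fin N → ℚ) : v ∈ V m N c ↔ ∀ q : Fin N, m ≤ (q : ℕ) →
    v q = ∑ l ∈ range m, c l * (if h : (q : ℕ) - m + l < N then v ⟨q - m + l, h⟩ else 0) := Iff.rfl

/-- restriction to the first `m` coordinates -/
def res (m N : ℕ) : (Fin N → ℚ) →ₗ[ℚ] (Fin m → ℚ) where
  toFun v p := if h : (p : ℕ) < N then v ⟨p, h⟩ else 0
  map_add' v w := by
    funext p
    simp only [Pi.add_apply]
    split_ifs <;> simp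
  map_smul' s v := by
    funext p
    simp only [Pi.smul_apply, smul_eq_mul, RingHom.id_apply]
    split_ifs <;> simp

lemma finrank_V (m N : ℕ) (c : ℕ → ℚ) : finrank ℚ (V m N c) ≤ m := by
  have h : Function.Injective ((res m N).comp (V m N c).subtype) := by
    rw [← LinearMap.ker_eq_bot, LinearMap.ker_eq_bot']
    intro v hv
    have h0 : ∀ p : ℕ, ∀ hp : p < N, (v : Fin N → ℚ) ⟨p, hp⟩ = 0 := by
      intro p
      induction p using Nat.strong_induction_on with
      | _ p ih =>
        intro hp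
        by_cases hpm : p < m
        · have h1 := congrFun hv ⟨p, hpm⟩
          simp only [res, LinearMap.comp_apply, Submodule.subtype_apply, LinearMap.coe_mk,
            AddHom.coe_mk, hp, dite_true, Pi.zero_apply] at h1
          exact h1
        · have h2 := (mem_V m N c v).1 v.2 ⟨p, hp⟩ (by simpa using hpm)
          rw [h2]
          refine Finset.sum_eq_zero fun l hl => ?_
          rw [mem_range] at hl
          have hlt : p - m + l < p := by omega
          simp only
          rw [dif_pos (by omega), ih _ hlt, mul_zero]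
    ext q
    exact h0 q q.2
  calc finrank ℚ (V m N c) ≤ finrank ℚ (Fin m → ℚ) := LinearMap.finrank_le_finrank_of_injective h
    _ = m := by simp

attribute [local instance] Matrix.seminormedAddCommGroup

theorem small : S_SMALL := by
  classical
  intro J a B hB ha m k r L K hk hK hL c hrec
  set n := m + 1 with hn
  -- the rows
  set row : Fin J → ℕ → (Fin (n + k) → ℚ) := fun j i q => (a j (i + q) : ℚ) with hrow
  set s : Set (Fin (n + k) → ℚ) := {v | ∃ j : Fin J, ∃ i : ℕ, i < r ∧ v = row j i} with hs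
  have hsV : s ⊆ V m (n + k) c := by
    rintro v ⟨j, i, hi, rfl⟩
    change _ ∈ V m (n + k) c
    rw [mem_V]
    intro q hq
    have hq2 := q.2
    have h1 := hrec j (i + (q - m)) (by omega)
    simp only [hrow]
    rw [show i + (q : ℕ) = i + ((q : ℕ) - m) + m by omega, h1]
    refine Finset.sum_congr rfl fun l hl => ?_
    rw [mem_range] at hl
    rw [dif_pos (by omega)]
    congr 3
    omega
  have hrank : finrank ℚ (Submodule.span ℚ s) ≤ m :=
    (Submodule.finrank_mono (Submodule.span_le.2 hsV)).trans (finrank_V m (n + k) c)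
  obtain ⟨D, f, hDm, hf, hspan⟩ : ∃ (D : ℕ) (f : Fin D → (Fin (n + k) → ℚ)), D ≤ m ∧
      (∀ i, f i ∈ s) ∧ Submodule.span ℚ (Set.range f) = Submodule.span ℚ s := by
    obtain ⟨f, hf, hspan, -⟩ := Submodule.exists_fun_fin_finrank_span_eq ℚ s
    exact ⟨_, f, hrank, hf, hspan⟩
  choose jj ii hii hfi using hf
  set A : Matrix (Fin n) (Fin (n + k)) ℤ := Matrix.of fun p q =>
    if h : (p : ℕ) < D then a (jj ⟨p, h⟩) (ii ⟨p, h⟩ + q) else 0 with hA
  obtain ⟨v, hv0, hv1, hv2⟩ := Int.Matrix.exists_ne_zero_int_vec_norm_le A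
    (by simp only [Fintype.card_fin]; omega) (by simp only [Fintype.card_fin]; omega)
  simp only [Fintype.card_fin] at hv2
  have hAn : ‖A‖ ≤ B := by
    rw [Matrix.norm_le_iff (by positivity)]
    intro p q
    rw [Int.norm_eq_abs]
    simp only [hA, Matrix.of_apply]
    split_ifs with h
    · exact_mod_cast ha _ _
    · simp
  have hv3 : ∀ j, |v j| ≤ (((n + k) * B) ^ K : ℕ) := by
    intro j
    have h1 : ‖v j‖ ≤ ‖v‖ := norm_le_pi_norm v j
    have h2 : (1 : ℝ) ≤ max 1 ‖A‖ := le_max_left _ _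
    have h3 : max 1 ‖A‖ ≤ (B : ℝ) := max_le (by exact_mod_cast hB) hAn
    have hn1 : (1 : ℝ) ≤ ((n + k : ℕ) : ℝ) := by exact_mod_cast (by omega : 1 ≤ n + k)
    have h4 : (1 : ℝ) ≤ ((n + k : ℕ) : ℝ) * max 1 ‖A‖ := by nlinarith
    have hkR : (0 : ℝ) < k := by exact_mod_cast hk
    have h5 : ((n : ℝ) / (((n + k : ℕ) : ℝ) - n)) ≤ (K : ℝ) := by
      have e : (((n + k : ℕ) : ℝ) - n) = k := by push_cast; ring
      rw [e, div_le_iff₀ hkR]
      exact_mod_cast hK
    have h6 : ‖v j‖ ≤ ((((n + k) * B) ^ K : ℕ) : ℝ) := by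
      calc ‖v j‖ ≤ ‖v‖ := h1
        _ ≤ (((n + k : ℕ) : ℝ) * max 1 ‖A‖) ^ ((n : ℝ) / (((n + k : ℕ) : ℝ) - n)) := hv2
        _ ≤ (((n + k : ℕ) : ℝ) * max 1 ‖A‖) ^ (K : ℝ) :=
            Real.rpow_le_rpow_of_exponent_le h4 h5
        _ = (((n + k : ℕ) : ℝ) * max 1 ‖A‖) ^ K := Real.rpow_natCast _ _
        _ ≤ (((n + k : ℕ) : ℝ) * B) ^ K := by
            gcongr
        _ = ((((n + k) * B) ^ K : ℕ) : ℝ) := by push_cast; ring
    rw [Int.norm_eq_abs] at h6
    exact_mod_cast h6
  -- the polynomial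
  set t : ℤ[X] := ofFn (n + k) v with ht
  have hco : ∀ j : Fin (n + k), t.coeff j = v j := fun j => by
    rw [ht, ofFn_coeff_eq_val_of_lt v j.2]
  have htd : t.natDegree < n + k := ofFn_natDegree_lt (by omega) v
  have hbd : ∀ j, |t.coeff j| ≤ (((n + k) * B) ^ K : ℕ) := by
    intro j
    by_cases hj : j < n + k
    · have := hco ⟨j, hj⟩
      simp only at this
      rw [this]
      exact hv3 _
    · rw [ht, ofFn_coeff_eq_zero_of_ge v (by omega), abs_zero]
      positivity
  refine ⟨t, ?_, by omega, hbd, ?_⟩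
  · intro h0
    apply hv0
    funext j
    rw [← hco j, h0, coeff_zero]
    rfl
  -- the functional
  set φ : (Fin (n + k) → ℚ) →ₗ[ℚ] ℚ := ∑ q : Fin (n + k), ((v q : ℚ)) • LinearMap.proj q with hφ
  have hφa : ∀ w : Fin (n + k) → ℚ, φ w = ∑ q : Fin (n + k), (v q : ℚ) * w q := by
    intro w
    rw [hφ]
    simp
  have hker : Submodule.span ℚ s ≤ LinearMap.ker φ := by
    rw [← hspan, Submodule.span_le]
    rintro w ⟨p, rfl⟩
    change f p ∈ LinearMap.ker φ
    rw [LinearMap.mem_ker, hφa, hfi p]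
    have hp : (p : ℕ) < n := by have := p.2; omega
    have h1 := congrFun hv1 ⟨p, hp⟩
    rw [Matrix.mulVec, dotProduct] at h1
    simp only [hA, Matrix.of_apply, p.2, dite_true, Pi.zero_apply, Fin.eta] at h1
    have h2 : ((∑ x : Fin (n + k), a (jj p) (ii p + x) * v x : ℤ) : ℚ) = 0 := by
      rw [h1]; simp
    push_cast at h2
    rw [← h2]
    refine Finset.sum_congr rfl fun q _ => ?_
    simp only [hrow]
    ring
  intro j i hi
  have h1 : row j i ∈ LinearMap.ker φ := hker (Submodule.subset_span ⟨j, i, hi, rfl⟩)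
  rw [LinearMap.mem_ker, hφa] at h1
  rw [W_eq t (a j) i (n + k) htd, Finset.sum_range]
  have h2 : ((∑ q : Fin (n + k), t.coeff q * a j (i + q) : ℤ) : ℚ) = 0 := by
    push_cast
    rw [← h1]
    refine Finset.sum_congr rfl fun q _ => ?_
    rw [hco q]
  exact_mod_cast h2

end Pool.Agent.W928.JL
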